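import Pool.Agent.SubLat.Final

set_option autoImplicit false

/-!
Answer to Q1: all three statements (i), (ii), (iii) fail for the class `𝒦` of lattices isomorphic
to a sublattice of the lattice of subspaces of a vector space over a (commutative) field.

* `𝒦` is not closed under products: `Sub(F₂³) × Sub(F₃³)` is not in `𝒦`, because an embedding of
  `Sub(F_p³)` into `Sub(V)`, `V` over `F`, forces `F` to have characteristic `p`
  (`char_lemma`).  Identities are preserved by products, so (i) and (iii) fail.
* for primes `n < p_n < q_n`, no `Sub(F_{p_n}³) × Sub(F_{q_n}³)` lies in `𝒦`, but every nonprincipal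
  ultraproduct of these lattices embeds into the lattice of subspaces of a rational vector space
  (`los`), so by Łoś's theorem (ii) fails.
-/

namespace Pool.Agent.Results.MP_622f37_al.AllThreeFail

open Pool.Agent.SubLat

universe u

theorem result :
    (¬ ∃ S : Set latLang.Sentence, (∀ φ ∈ S, IsIdentity φ) ∧ Specifies.{u} S) ∧
    (¬ ∃ S : Set latLang.Sentence, S.Finite ∧ Specifies.{u} S) ∧
    (¬ ∃ S : Set latLang.Sentence, S.Finite ∧ (∀ φ ∈ S, IsIdentity φ) ∧ Specifies.{u} S) := by
  refine ⟨?_, ?_, ?_⟩
  · rintro ⟨S, h1, h2⟩
    exact not_identities S h1 h2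
  · rintro ⟨S, h1, h2⟩
    exact not_finite S h1 h2
  · rintro ⟨S, h1, h2, h3⟩
    exact not_identities S h2 h3

end Pool.Agent.Results.MP_622f37_al.AllThreeFail
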